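import Pool.Agent.Lib.MP_b5021c_nt.IfaceO4V
import Pool.Agent.Lib.MP_b5021c_nt.O1.H12.Cnt
import Pool.Agent.Lib.MP_b5021c_nt.OF.H29.Of2
import Pool.Agent.Lib.MP_b5021c_nt.OF.H47.Rec
import Pool.Agent.Lib.MP_b5021c_nt.E.H78.Zfa

/-!
# Board b5, row O4_A (helper29): the count at the A-load of a mutual pair, `g = 1`
-/

namespace Pool.Agent.B5.O4VH29

open scoped LaurentPolynomial
open Polynomial
open Pool.Agent.B5.KE
open Pool.Agent.B5.KO67
open Pool.Agent.B5.OF47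
open Pool.Agent.B5.Nr.Sch (Loc)

/-! ## One variable -/

/-- `f` and `E` when `z E conj f` is real on the circle. -/
theorem shape {f E : ℤ[X]} (hf0 : f.coeff 0 = 1) (hE0 : E.coeff 0 ≠ 0)
    (hEz : ∀ z : ℂ, ‖z‖ ≤ 1 → (aeval z E : ℂ) ≠ 0)
    (him : ∀ z : ℂ, ‖z‖ = 1 →
      ((aeval z (X * E) : ℂ) * (starRingEnd ℂ) (aeval z f : ℂ)).im = 0) :
    E = C (E.coeff 0) ∧ f = 1 + C (f.coeff 1) * X + X ^ 2 := by
  have hev : ∀ (p : ℤ[X]) (z : ℂ), (cpz p).eval z = aeval z p := fun p z => ev_map p z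
  have hc : ∀ z : ℂ, ‖z‖ = 1 → (cpz f).eval z * z⁻¹ * (cpz E).eval z⁻¹ =
      (cpz f).eval z⁻¹ * z * (cpz E).eval z := by
    intro z hz
    have h1 := Complex.conj_eq_iff_im.mpr (him z hz)
    have h2 : (starRingEnd ℂ) (aeval z f : ℂ) = (cpz f).eval z⁻¹ := by
      rw [← hev, cconj, conj_inv hz]
    have h3 : (starRingEnd ℂ) (aeval z E : ℂ) = (cpz E).eval z⁻¹ := by
      rw [← hev, cconj, conj_inv hz]
    rw [map_mul, Complex.conj_conj, map_mul (aeval z), aeval_X, map_mul, h3, conj_inv hz, h2,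
      ← hev, ← hev] at h1
    linear_combination h1
  have hf0' : (cpz f).coeff 0 ≠ 0 := by
    rw [ccoeff, hf0]
    norm_num
  have hE0' : (cpz E).coeff 0 ≠ 0 := by
    rw [ccoeff]
    exact_mod_cast hE0
  obtain ⟨hd, hr⟩ := recip hc hf0' hE0'
  have hP : ∀ z : ℂ, ‖z‖ ≤ 1 → (cpz E).eval z ≠ 0 := fun z hz => by
    rw [hev]
    exact hEz z hz
  have hcop : IsCoprime (cpz E) (cpz E).reverse := by
    rw [isCoprime_iff_aeval_ne_zero_of_isAlgClosed ℂ ℂ]
    intro z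
    rcases le_or_gt ‖z‖ 1 with h | h
    · left
      rw [coe_aeval_eq_eval]
      exact hP z h
    · right
      have hz0 : z ≠ 0 := by
        intro h0
        rw [h0, norm_zero] at h
        linarith
      rw [coe_aeval_eq_eval, rev_eval _ hz0]
      refine mul_ne_zero (pow_ne_zero _ hz0) (hP _ ?_)
      rw [norm_inv]
      exact inv_le_one_of_one_le₀ h.le
  have hdvd : cpz E ∣ cpz f := by
    refine hcop.dvd_of_dvd_mul_left ⟨(cpz f).reverse, ?_⟩
    linear_combination hr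
  -- over the rationals
  have hcq : ∀ p : ℤ[X], cpz p = (p.map (Int.castRingHom ℚ)).map (algebraMap ℚ ℂ) := by
    intro p
    unfold cpz
    rw [Polynomial.map_map]
    congr 1
  have hdq : E.map (Int.castRingHom ℚ) ∣ f.map (Int.castRingHom ℚ) := by
    rw [hcq, hcq] at hdvd
    exact (Polynomial.map_dvd_map' _).mp hdvd
  have hEp : E.primPart ∣ f := by
    rw [IsPrimitive.Int.dvd_iff_map_cast_dvd_map_cast _ _ E.isPrimitive_primPart]
    refine dvd_trans ?_ hdq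
    conv_rhs => rw [E.eq_C_content_mul_primPart]
    rw [Polynomial.map_mul]
    exact dvd_mul_left _ _
  have hE0n : E ≠ 0 := by
    intro h0
    rw [h0, coeff_zero] at hE0
    exact hE0 rfl
  have hp0 : E.primPart.coeff 0 = 1 ∨ E.primPart.coeff 0 = -1 := by
    obtain ⟨w, hw⟩ := hEp
    have h1 : E.primPart.coeff 0 * w.coeff 0 = 1 := by rw [← mul_coeff_zero, ← hw, hf0]
    exact Int.isUnit_iff.mp (IsUnit.of_mul_eq_one _ h1)
  have hpc := H78.const_of_roots E.primPart hp0 (by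
    intro z hz
    by_contra hcon
    push Not at hcon
    apply hEz z hcon
    have h1 : (E.primPart.map (Int.castRingHom ℂ)).eval z = aeval z E.primPart := ev_map _ z
    rw [h1] at hz
    rw [E.eq_C_content_mul_primPart, map_mul, hz, mul_zero])
  have hEc : E = C (E.coeff 0) := by
    conv_lhs => rw [E.eq_C_content_mul_primPart, hpc, ← C_mul]
    congr 1
    conv_rhs => rw [E.eq_C_content_mul_primPart]
    rw [coeff_C_mul]
  refine ⟨hEc, ?_⟩
  have hEcc : cpz E = C ((E.coeff 0 : ℤ) : ℂ) := by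
    conv_lhs => rw [hEc]
    unfold cpz
    rw [map_C]
    congr 1
  have hd2 : (cpz f).natDegree = 2 := by
    rw [hd, hEcc, natDegree_C]
  have hn0 : ((E.coeff 0 : ℤ) : ℂ) ≠ 0 := by exact_mod_cast hE0
  have hrf : cpz f = (cpz f).reverse := by
    rw [hEcc, reverse_C] at hr
    exact mul_right_cancel₀ (C_ne_zero.mpr hn0) hr
  have hc2 : (cpz f).coeff 2 = 1 := by
    have h1 : (cpz f).coeff 2 = (cpz f).leadingCoeff := by
      rw [leadingCoeff, hd2]
    rw [h1, ← coeff_zero_reverse, ← hrf, ccoeff, hf0]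
    norm_num
  have hf2 : f.coeff 2 = 1 := by
    rw [ccoeff] at hc2
    exact_mod_cast hc2
  have hfd : ∀ k, 2 < k → f.coeff k = 0 := by
    intro k hk
    have h1 : (cpz f).coeff k = 0 := coeff_eq_zero_of_natDegree_lt (by rw [hd2]; exact hk)
    rw [ccoeff] at h1
    exact_mod_cast h1
  ext k
  rcases Nat.lt_or_ge 2 k with h1 | h1
  · rw [hfd k h1, coeff_add, coeff_add, coeff_one, coeff_C_mul, coeff_X, coeff_X_pow,
      if_neg (by omega), if_neg (by omega), if_neg (by omega)]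
    ring
  · have h2 : k = 0 ∨ k = 1 ∨ k = 2 := by omega
    rw [coeff_add, coeff_add, coeff_one, coeff_C_mul, coeff_X, coeff_X_pow]
    rcases h2 with h2 | h2 | h2 <;> subst h2
    · rw [hf0]
      norm_num
    · norm_num
    · rw [hf2]
      norm_num

/-- The numbers. -/
theorem nums {q f E : ℤ[X]} {a p : ℝ} {j : ℕ} (O : O1d q f a p j) (ha2 : a < 1 / 2)
    (hmu : (j : ℝ) ≤ a⁻¹ - a) (hlt : a⁻¹ < j + 1) (eq : f - q = X * E) {n h : ℤ}
    (hE : E = C n) (hf : f = 1 + C h * X + X ^ 2) :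
    n - h = j + 1 ∧ h ≤ -3 := by
  have ha0 := O.loc.a0
  have hq : q = 1 + C (h - n) * X + X ^ 2 := by
    have h1 : q = f - X * E := by rw [← eq]; ring
    rw [h1, hf, hE, C_sub]
    ring
  obtain ⟨s, hs, -⟩ := O.loc.s
  have hqa : (aeval a q : ℝ) = 0 := by
    have h1 : (aeval a q : ℝ) = (q.map (Int.castRingHom ℝ)).eval a := by
      rw [eval_map, aeval_def]
      rfl
    rw [h1, hs, eval_mul, eval_sub, eval_X, eval_C, sub_self, zero_mul]
  have hq1 : ∀ x : ℝ, (aeval x q : ℝ) = 1 + ((h : ℝ) - n) * x + x ^ 2 := by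
    intro x
    rw [hq]
    simp
  have hf1 : ∀ x : ℝ, (aeval x f : ℝ) = 1 + (h : ℝ) * x + x ^ 2 := by
    intro x
    rw [hf]
    simp
  rw [hq1] at hqa
  have h1 : ((n - h : ℤ) : ℝ) = a⁻¹ + a := by
    push_cast
    field_simp
    linarith
  have h2 : ((j : ℤ) : ℝ) < ((n - h : ℤ) : ℝ) := by
    rw [h1]
    push_cast
    linarith
  have h3 : ((n - h : ℤ) : ℝ) < ((j + 2 : ℤ) : ℝ) := by
    rw [h1]
    push_cast
    linarith
  have h4 : (j : ℤ) < n - h := by exact_mod_cast h2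
  have h5 : n - h < (j : ℤ) + 2 := by exact_mod_cast h3
  have h6 : n - h = j + 1 := by omega
  refine ⟨h6, ?_⟩
  have hB := O.B
  have hp0 := O.p0
  have hpj := O.pj
  rw [hq1, hf1] at hB
  have h7 : 1 - p ^ 2 = j * p := by
    rw [← hpj]
    field_simp
  have h8 : (h : ℝ) - n = -((j : ℝ) + 1) := by
    have : ((n - h : ℤ) : ℝ) = (j : ℝ) + 1 := by rw [h6]; push_cast; ring
    push_cast at this
    linarith
  rw [h8] at hB
  have h9 : p ^ 2 * (2 + h + p) ≤ 0 := by nlinarith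
  have h10 : 2 + (h : ℝ) + p ≤ 0 := by
    by_contra hcon
    push Not at hcon
    have := mul_pos (pow_pos hp0 2) hcon
    linarith
  have h11 : (h : ℝ) < -2 := by linarith
  have h12 : h < -2 := by exact_mod_cast h11
  omega

/-- The content. -/
theorem cnt_c {j L c0 N' SB : ℕ} (h1 : 1 ≤ c0) (h2 : 2 ≤ N') (hν : c0 * N' ≤ j)
    (hL : (L + c0) * N' ≤ 2 * j + 1) (hrk : 2 * j ≤ L + 2 * SB + 1) (hSB : SB ≤ N') : c0 = 1 := by
  by_contra hcon
  have hc2 : 2 ≤ c0 := by omega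
  have h5 : 2 * N' ≤ j := (Nat.mul_le_mul_right N' hc2).trans hν
  have h6 : j + 1 ≤ L + c0 := by omega
  have h7 : (j + 1) * 2 ≤ (L + c0) * N' := Nat.mul_le_mul h6 h2
  omega

/-- No small factor. -/
theorem cnt_s {j L n : ℕ} (h2 : 2 ≤ n) (hn : n + 2 ≤ j) (hL : L * n + n ≤ 2 * j - 2)
    (hrk : 2 * j ≤ L + 2 * n + 1) : False := by
  obtain ⟨m, rfl⟩ : ∃ m, j = n + m := ⟨j - n, by omega⟩
  have h3 : 2 * m - 1 ≤ L := by omega
  obtain ⟨k, rfl⟩ : ∃ k, m = k + 2 := ⟨m - 2, by omega⟩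
  obtain ⟨l, rfl⟩ : ∃ l, n = l + 2 := ⟨n - 2, by omega⟩
  have h4 : (2 * k + 3) * (l + 2) ≤ L * (l + 2) := Nat.mul_le_mul_right _ (by omega)
  have h5 : 2 * (l + 2 + (k + 2)) - 2 = 2 * l + 2 * k + 6 := by omega
  rw [h5] at hL
  nlinarith

/-- `V_0` divides no element with the lowest coefficient one. -/
theorem no_div {E g v : ℤ[X]} {w : RO ℤ} (hE : 2 ≤ E.coeff 0) (hg : g.coeff 0 = 1)
    (hv : v = X * (-E)) (h : (toLaurent g : RO ℤ) = w * toLaurent v) : False := by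
  have hw : w ≠ 0 := by
    rintro rfl
    rw [zero_mul] at h
    have h1 : g = 0 := Polynomial.toLaurent_injective (by rw [h, map_zero])
    rw [h1, coeff_zero] at hg
    exact zero_ne_one hg
  obtain ⟨k, p, hp, hwp⟩ := H67.nf_exists hw
  have h1 : (LaurentPolynomial.T 0 : RO ℤ) * toLaurent g =
      LaurentPolynomial.T (k + 1) * toLaurent (p * -E) := by
    rw [LaurentPolynomial.T_zero, one_mul, h, hwp, hv, map_mul toLaurent, map_mul toLaurent,
      toLaurent_X, LaurentPolynomial.T_add]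
    ring
  have h2 : (p * -E).coeff 0 ≠ 0 := by
    rw [mul_coeff_zero, coeff_neg]
    exact mul_ne_zero hp (by omega)
  obtain ⟨-, h4⟩ := H56.nf_unique 0 (k + 1) g (p * -E) (by rw [hg]; exact one_ne_zero) h2 h1
  have h5 : p.coeff 0 * -E.coeff 0 = 1 := by
    rw [← coeff_neg, ← mul_coeff_zero, ← h4, hg]
  have h6 := Int.isUnit_iff.mp (IsUnit.of_mul_eq_one _ (by rw [mul_comm]; exact h5))
  omega

section

variable {P L : Type} [Fintype P] [DecidableEq P] [AddCommGroup L] [Module.Free ℤ L]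
  [Module.Finite ℤ L] {phi : L →+ (P → ℤ)} {D : AO ℤ L}

/-- The rank of a big factor. -/
theorem big_rk (hClp : ClpS) (hEvz : EvzS) {S : L} {i0 : P}
    {eta : (RO ℤ)ˣ} {h : co phi i0 S = 1} {c : RO ℤ} {n : ℕ}
    {G : Fin n → AO ℤ (Ker (co phi i0))} (fp : FP phi D) (fd : FD phi D S i0 eta h c n G)
    (i : Fin n) {N : ℕ} (hN : 2 ≤ N) (hV : ClassV (N : ℝ) ((G i).coeff 0)) :
    rk (supp (G i)) ≤ 2 * N := by
  obtain ⟨-, hcl⟩ := hClp ℤ P L phi D S i0 eta h c n G fp fd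
  obtain ⟨-, K, hsat, hK, hKr, hDD⟩ := hcl i
  have hV' : ClassV (N : ℝ) ((res K (G i)).coeff 0) := by
    have h1 : (res K (G i)).coeff 0 = (G i).coeff 0 := rfl
    rw [h1]; exact hV
  have h1 := hEvz N hN P K _ _ hDD hV'
  rw [hKr] at h1
  exact_mod_cast h1

/-- A small factor. -/
theorem small (hQs : QsgS) (hNw : NdwS) (hF3c : Fc3S) (hMc : McoS) {q f E : ℤ[X]} {a p : ℝ}
    {j : ℕ} {eta : L → (RO ℤ)ˣ} {g : ℕ} {C' : Set L} {S0 S1 : L} {e0 e1 : (RO ℤ)ˣ}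
    {i0 : P} {h : co phi i0 S0 = 1} {c : RO ℤ} {n : ℕ} {G : Fin n → AO ℤ (Ker (co phi i0))}
    (K : K4 phi D q f E a p j eta g C' S0 S1 e0 e1) (fd : FD phi D S0 i0 (-e0) h c n G)
    (hMc1 : M c = 1) (hsn : (snp phi S0 i0 G).Nonempty) :
    ∃ m : ℕ, E.coeff 0 = m ∧ m + 2 ≤ j ∧ (snp phi S0 i0 G).card * m + m ≤ 2 * j - 2 := by
  classical
  have hR := K.r0
  have hu := K.o.f0
  have W := K.kc.ko
  have hFP := W.min.fp
  have hD := hFP.dd
  have hj := W.j2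
  obtain ⟨ha0, ha2, -, hθ⟩ := ko_num W
  have h2 : 2 ≤ Module.finrank ℤ L := by rw [W.rk]; omega
  have hv0 : D.coeff 0 + ((-e0 : (RO ℤ)ˣ) : RO ℤ) * D.coeff S0 = toLaurent (q - f) := V0_A hR
  have hqf : q - f = X * (-E) := by
    rw [mul_neg, ← K.eq]
    ring
  have hDS : ((-e0 : (RO ℤ)ˣ) : RO ℤ) * D.coeff S0 = -toLaurent f := by
    rw [Units.val_neg, neg_mul, hR.DS]
  have hq0 := hR.loc.q0
  have hev0 : ∀ z : ℂ, ‖z‖ = 1 → (aeval z (q - f) : ℂ) ≠ 0 := by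
    intro z hz
    rw [hqf, map_mul, aeval_X, map_neg]
    refine mul_ne_zero ?_ (neg_ne_zero.mpr (K.ez z hz.le))
    intro h0
    rw [h0, norm_zero] at hz
    exact zero_ne_one hz
  obtain ⟨t, ht, hmass⟩ := hQs ℤ P L phi D S0 i0 (-e0) h c n G fd hMc1 0 (q - f)
    (by rw [hv0, LaurentPolynomial.T_zero, one_mul]) (by
      intro z0 hz0 hdv
      apply hev0 z0 hz0
      obtain ⟨w, hw⟩ := hdv
      rw [← ev_map, hw, eval_mul, eval_pow, eval_sub, eval_X, eval_C, sub_self]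
      ring)
  obtain ⟨hall1, hmut⟩ : (∀ R, Ray D R → R ∉ US (-e0) S0 D → ∃ e2 : (RO ℤ)ˣ,
      Mut D S0 R (-e0) e2) ∧ Mut D S0 S1 (-e0) (-e1) := by
    refine ⟨fun R hRr hRU => ?_, K.mt⟩
    have h3 := (K.kc.kc.mtl S0 K.m0 R hRr (by rw [K.t0]; exact hRU)).2
    rw [K.t0] at h3
    exact ⟨_, h3⟩
  have hqL : D.coeff 0 = toLaurent q := hR.D0
  -- all masses are one
  have hmass1 : ∀ l ∈ snp phi S0 i0 G, t l = 1 ∧ ∃ (b : L) (e' : (RO ℤ)ˣ),
      Bin phi b ∧ b ≠ 0 ∧ (∀ i, phi b i = 0 ∨ phi S0 i = 0) ∧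
      (e' : RO ℤ) * D.coeff b = ((-e0 : (RO ℤ)ˣ) : RO ℤ) * D.coeff S0 ∧
      ((-e0 : (RO ℤ)ˣ) : RO ℤ) * (e' : RO ℤ) * D.coeff (S0 + b) =
        -(D.coeff 0 + 2 * (((-e0 : (RO ℤ)ˣ) : RO ℤ) * D.coeff S0)) ∧
      (∀ a : L, (∀ i, phi a i = 0 ∨ (phi S0 i = 0 ∧ phi b i = 0)) → a ∉ US (-e0) S0 D →
        D.coeff a + ((-e0 : (RO ℤ)ˣ) : RO ℤ) * D.coeff (a + S0) = 0 ∧
        D.coeff a + (e' : RO ℤ) * D.coeff (a + b) = 0 ∧
        D.coeff (a + b) + ((-e0 : (RO ℤ)ˣ) : RO ℤ) * D.coeff (a + b + S0) = 0) ∧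
      ∀ (S2 : L) (e2 : (RO ℤ)ˣ), Mut D S0 S2 (-e0) e2 → ∀ i, phi b i = 0 ∨ phi S2 i = 0 := by
    intro l hl
    obtain ⟨b, j', e', hj', Q, F, hQ, hQF, -, hFt, ht0, -⟩ := ht l hl
    rcases hNw ℤ P L phi D S0 i0 (-e0) h c n G l b j' e' hj' Q F S1 (-e1) hFP hQ hQF
      (by rw [hFt]; exact ht0) hmut hall1 with h3 | h3 | h3 | h3
    · exfalso
      obtain ⟨w, hw⟩ := h3
      rw [hv0] at hw
      refine no_div (w := (e0 : RO ℤ) * w) (g := f) K.n2 hu hqf ?_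
      rw [← hR.DS, hw]
      ring
    · exfalso
      rw [hv0, hqL] at h3
      exact no_div K.n2 hq0 hqf h3
    · exfalso
      rw [hv0, hqL] at h3
      exact no_div K.n2 hq0 hqf h3
    · obtain ⟨h4, h5, h6, h7, h8, h9, h10⟩ := h3
      refine ⟨by rw [← hFt, h4], b, e', h5, ?_, h6, h7, h8, h9, h10⟩
      intro h11
      have h12 := hQ.sp.bj
      rw [h11, map_zero] at h12
      exact zero_ne_one h12
  obtain ⟨l0, hl0⟩ := hsn
  obtain ⟨-, b, e', h3, h4, h5, h6, h7, h8, h9⟩ := hmass1 l0 hl0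
  have him := OFH29.face_three hF3c hMc hD h2 hmut h3 h4 h5 h6 h7 h8 h9
  obtain ⟨hEc, hfc⟩ := shape hu (by have := K.n2; omega) K.ez (by
    intro z hz
    obtain ⟨w, rfl⟩ := circle_of z hz
    have h10 := him w
    rw [hv0, hDS, map_neg, evR_poly, evR_poly, hqf, mul_neg, map_neg, map_neg, neg_mul_neg]
      at h10
    exact h10)
  obtain ⟨hn1, hh3⟩ := nums K.o ha2 W.mu hθ K.eq hEc hfc
  have hn2 := K.n2
  obtain ⟨m, hm⟩ : ∃ m : ℕ, E.coeff 0 = m := ⟨(E.coeff 0).toNat, by omega⟩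
  refine ⟨m, hm, by omega, ?_⟩
  -- the masses at `z = 1`
  have h10 := hmass 1
  have h11 : ∑ l ∈ snp phi S0 i0 G, (evR 1 (t l)).re = ((snp phi S0 i0 G).card : ℝ) := by
    rw [Finset.sum_congr rfl fun l hl => by rw [(hmass1 l hl).1, map_one, Complex.one_re]]
    simp
  have hE1 : (aeval (1 : ℂ) E : ℂ) = (m : ℂ) := by
    rw [hEc, hm]
    simp
  have h12 : evR 1 (D.coeff 0 + ((-e0 : (RO ℤ)ˣ) : RO ℤ) * D.coeff S0) = -(m : ℂ) := by
    rw [hv0, evR_poly, hqf, Circle.coe_one, map_mul, aeval_X, map_neg, hE1, one_mul]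
  have h13 : evR 1 (D.coeff 0) = 1 - (j : ℂ) := by
    have h14 : q = f - X * E := by rw [← K.eq]; ring
    obtain ⟨k, hk⟩ : ∃ k : ℤ, k = f.coeff 1 := ⟨_, rfl⟩
    have h15 : (k : ℂ) = (m : ℂ) - j - 1 := by
      have h16 : (k : ℤ) = m - j - 1 := by omega
      rw [h16]
      push_cast
      ring
    rw [← hk] at hfc
    rw [hqL, evR_poly, Circle.coe_one, h14, map_sub, map_mul, aeval_X, hE1, hfc]
    simp only [map_add, map_one, map_mul, aeval_X, map_pow, one_pow, mul_one, one_mul]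
    have h17 : (aeval (1 : ℂ) (C k : ℤ[X]) : ℂ) = k := by simp
    rw [h17, h15]
    ring
  rw [h11, h12, h13] at h10
  have h17 : ((1 - (j : ℂ)) * (starRingEnd ℂ) (-(m : ℂ))).re = (j - 1) * m := by
    rw [map_neg, map_natCast]
    have : (1 - (j : ℂ)) * -(m : ℂ) = ((((j : ℝ) - 1) * m : ℝ) : ℂ) := by
      push_cast
      ring
    rw [this, Complex.ofReal_re]
  rw [h17, norm_neg, Complex.norm_natCast] at h10
  have hm0 : (0 : ℝ) < m := by
    have : 0 < m := by omega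
    exact_mod_cast this
  have h18 : ((snp phi S0 i0 G).card : ℝ) * m + m ≤ 2 * j - 2 := by
    by_contra hcon
    push Not at hcon
    nlinarith
  have h19 : (((snp phi S0 i0 G).card * m + m + 2 : ℕ) : ℝ) ≤ ((2 * j : ℕ) : ℝ) := by
    push_cast
    linarith
  have h20 : (snp phi S0 i0 G).card * m + m + 2 ≤ 2 * j := by exact_mod_cast h19
  omega

end

/-- ROW O4_A. -/
theorem o4a (h1 : SmallS) (h2 : QstS) (hQp : Qp3S) (hKe : KerEvS) (hMm : MmulS) (hMV : MVS)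
    (hE1 : E1S) (hDb : Db3S) (hNn : Nn3S) (hHp : Hp3S)
    (hGen : GenS) (hE : SlEvalS) (hEv : EvRS) (hSh : SharpS) (hDe : DensS) (hZ : ZfinS)
    (hU : UnitAS) (hFace : FaceS) (hSt : StSpecS) (hMu : MultiS) (hE2 : E2S) (hP : PrimS)
    (hB3 : B3S) (hFull : FullS) (hNd : Nd3S) (hPsn : PsnS) (hSnr : Nr.SnrS) (hG1 : G1pS)
    (hClp : ClpS) (hEvz : EvzS) (hM1 : M1S) (hQs : QsgS) (hNw : NdwS) (hF3c : Fc3S)
    (hMco : McoS) (hNa : O4naS) : O4aS := by
  classical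
  intro P L _ _ _ _ _ phi D q f E a p j eta C' S0 S1 e0 e1 i0 h c n G K fd
  have hR := K.r0
  have hu := K.o.f0
  have W := K.kc.ko
  have hFP := W.min.fp
  have hj := W.j2
  obtain ⟨ha0, ha2, hθ2, hθ⟩ := ko_num W
  obtain ⟨i1, hi1⟩ := hNa P L phi D q f E a p j eta 1 C' S0 S1 e0 e1 i0 h c n G K fd
  have hEq1 : E.coeff 0 = f.coeff 1 - q.coeff 1 := by
    rw [← coeff_sub, K.eq, coeff_X_mul]
  obtain ⟨hVV, hnn⟩ := O1.H12.classV_A hR hu
  rw [← hEq1] at hVV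
  have hcls := hVV
  rw [fd.v00] at hcls
  obtain ⟨Nc, -, hcV, -, -⟩ := (hE1 ℤ).1 _ _ _ hcls
  obtain ⟨c0, hc0, rfl⟩ := O1.H12.classV_nat hcV
  have hgV : ∀ i, ∃ m : ℕ, 1 ≤ m ∧ ClassV (m : ℝ) ((G i).coeff 0) := by
    intro i
    have h3 : c * ∏ i, (G i).coeff 0 = (G i).coeff 0 *
        (c * ∏ k ∈ Finset.univ.erase i, (G k).coeff 0) := by
      rw [← Finset.mul_prod_erase Finset.univ (fun i => (G i).coeff 0) (Finset.mem_univ i)]
      ring
    rw [h3] at hcls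
    obtain ⟨N1, -, h4, -, -⟩ := (hE1 ℤ).1 _ _ _ hcls
    obtain ⟨m, hm, rfl⟩ := O1.H12.classV_nat h4
    exact ⟨m, hm, h4⟩
  choose Ni hNi1 hNiV using hgV
  have hMc : M c = c0 := ((hMV ℤ).1 _ _ hcV).2
  have hMi : ∀ i, M ((G i).coeff 0) = Ni i := fun i => ((hMV ℤ).1 _ _ (hNiV i)).2
  have hMp : ∀ s : Finset (Fin n), M (∏ i ∈ s, (G i).coeff 0) = ∏ i ∈ s, (Ni i : ℝ) := by
    intro s
    induction s using Finset.induction_on with
    | empty =>
      rw [Finset.prod_empty, Finset.prod_empty]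
      exact (hMm ℤ).2.2 1 isUnit_one
    | insert i s hi ih =>
      rw [Finset.prod_insert hi, Finset.prod_insert hi,
        (hMm ℤ).1 _ _ (fd.st i).1 (Finset.prod_ne_zero_iff.mpr fun k _ => (fd.st k).1), ih, hMi]
  have hn2 := K.n2
  obtain ⟨nu, hnu⟩ : ∃ nu : ℕ, E.coeff 0 = nu := ⟨(E.coeff 0).toNat, by omega⟩
  have hnuj : nu ≤ j := by
    have := K.nj
    omega
  obtain ⟨N', hN'⟩ : ∃ N' : ℕ, N' = ∏ i, Ni i := ⟨_, rfl⟩
  have hprod : nu = c0 * N' := by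
    have h3 := ((hMV ℤ).1 _ _ hcls).2
    rw [(hMm ℤ).1 _ _ fd.c0 (Finset.prod_ne_zero_iff.mpr fun k _ => (fd.st k).1), hMc, hMp,
      hnu, Int.cast_natCast] at h3
    have h4 : ((c0 * N' : ℕ) : ℝ) = nu := by
      rw [← h3, hN']
      push_cast
      rfl
    exact_mod_cast h4.symm
  -- big factors
  have hbig : ∀ i, i ∈ big G ↔ 2 ≤ Ni i := by
    intro i
    unfold big
    rw [Finset.mem_filter, hMi]
    constructor
    · rintro ⟨-, h3⟩
      have h4 : 1 < Ni i := by exact_mod_cast h3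
      omega
    · intro h3
      refine ⟨Finset.mem_univ i, ?_⟩
      exact_mod_cast (by omega : 1 < Ni i)
  have hN'b : N' = ∏ i ∈ big G, Ni i := by
    rw [hN']
    symm
    apply Finset.prod_subset (Finset.subset_univ _)
    intro i _ hi
    rw [hbig] at hi
    have := hNi1 i
    omega
  obtain ⟨SB, hSB⟩ : ∃ SB : ℕ, SB = ∑ i ∈ big G, Ni i := ⟨_, rfl⟩
  have hbne : (big G).Nonempty := ⟨i1, by
    unfold big
    exact Finset.mem_filter.mpr ⟨Finset.mem_univ _, hi1⟩⟩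
  obtain ⟨hSB1, hSB2⟩ : SB ≤ N' ∧ 2 ≤ N' := by
    rw [hSB, hN'b]
    exact O1.H12.sum_le_prod _ _ (fun i hi => (hbig i).mp hi) hbne
  -- the rank
  have hclp := hClp ℤ P L phi D S0 i0 (-e0) h c n G hFP fd
  have hrk := hG1 ℤ P L phi D S0 i0 (-e0) h c n G fd (fun i b _ hpu _ => absurd hpu (hclp.2 i).1)
  have hrk1 : ∀ i ∈ big G, rk (supp (G i)) ≤ 2 * Ni i := fun i hi =>
    big_rk hClp hEvz hFP fd i ((hbig i).mp hi) (hNiV i)
  have hrk2 : ∑ i ∈ big G, rk (supp (G i)) ≤ 2 * SB := by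
    rw [hSB, Finset.mul_sum]
    exact Finset.sum_le_sum hrk1
  have hfr := W.rk
  have hdr := K.kc.kc.dr S0 K.m0 i0 h
  rw [K.t0] at hdr
  have hrk3 : 2 * j ≤ (snp phi S0 i0 G).card + 2 * SB + 1 := by omega
  -- the number of small factors
  have hL := O1.H12.l_bound h1 h2 hQp hKe hMm hMV hE1 hDb hNn hHp hGen hE hEv hSh hDe hZ hU
    hFace hSt hMu hE2 hP hB3 hFull hNd hPsn hSnr hR hu ha2.le fd
  rw [← hEq1, hnu, Int.cast_natCast] at hL
  have hL2 : ((snp phi S0 i0 G).card + c0) * N' ≤ 2 * j + 1 := by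
    rw [hMc] at hL
    have h3 : (0 : ℝ) < nu := by
      have : 0 < nu := by omega
      exact_mod_cast this
    have h4 : ((snp phi S0 i0 G).card + c0 : ℝ) * nu ≤ c0 * (2 * (a⁻¹ - a)) := by
      have h5 := mul_le_mul_of_nonneg_right hL h3.le
      have h6 : (c0 : ℝ) * (2 * (a⁻¹ - a) / nu - 1) * nu = c0 * (2 * (a⁻¹ - a)) - c0 * nu := by
        field_simp
      rw [h6] at h5
      linarith
    have h5 : (0 : ℝ) < c0 := by exact_mod_cast hc0
    have h6 : (((snp phi S0 i0 G).card + c0 : ℝ) * N') ≤ 2 * (a⁻¹ - a) := by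
      rw [hprod] at h4
      push_cast at h4
      refine le_of_mul_le_mul_left ?_ h5
      calc (c0 : ℝ) * (((snp phi S0 i0 G).card + c0 : ℝ) * N')
          = ((snp phi S0 i0 G).card + c0 : ℝ) * (c0 * N') := by ring
        _ ≤ _ := h4
    have h7 : (((snp phi S0 i0 G).card + c0 : ℝ) * N') < 2 * j + 2 := by linarith
    have h8 : ((snp phi S0 i0 G).card + c0) * N' < 2 * j + 2 := by exact_mod_cast h7
    omega
  have hc1 := cnt_c hc0 hSB2 (by omega) hL2 hrk3 hSB1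
  subst hc1
  rw [one_mul] at hprod
  have hMc1 : M c = 1 := by rw [hMc, Nat.cast_one]
  -- no small factor
  have hs0 : snp phi S0 i0 G = ∅ := by
    rw [← Finset.not_nonempty_iff_eq_empty]
    intro hsn
    obtain ⟨m, hm, hmj, hLm⟩ := small hQs hNw hF3c hMco K fd hMc1 hsn
    have hmn : m = nu := by omega
    exact cnt_s (by omega) hmj hLm (by omega)
  have hab := all_big hClp hFP fd hs0
  rw [hs0, Finset.card_empty] at hrk3
  rw [hs0, Finset.card_empty] at hrk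
  refine ⟨by omega, ?_, hab, ?_⟩
  · apply hM1 ℤ c fd.c0 hMc1
    intro z h0
    have h3 : evR z (D.coeff 0 + ((-e0 : (RO ℤ)ˣ) : RO ℤ) * D.coeff S0) = 0 := by
      rw [fd.v00, map_mul, h0, zero_mul]
    have hqf : q - f = X * (-E) := by
      rw [mul_neg, ← K.eq]
      ring
    rw [V0_A hR, evR_poly, hqf, map_mul, aeval_X, map_neg, mul_neg, neg_eq_zero] at h3
    rcases mul_eq_zero.mp h3 with h4 | h4
    · exact Circle.coe_ne_zero z h4
    · exact K.ez _ (Circle.norm_coe z).le h4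
  · intro i
    have hib : ∀ i, i ∈ big G := fun i => by
      unfold big
      exact Finset.mem_filter.mpr ⟨Finset.mem_univ i, hab i⟩
    have h3 := Finset.sum_erase_add (big G) (fun i => rk (supp (G i))) (hib i)
    have h4 := Finset.sum_erase_add (big G) Ni (hib i)
    have h5 : ∑ k ∈ (big G).erase i, rk (supp (G k)) ≤ ∑ k ∈ (big G).erase i, 2 * Ni k :=
      Finset.sum_le_sum fun k _ => hrk1 k (hib k)
    rw [← Finset.mul_sum] at h5
    have h6 := (hbig i).mp (hib i)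
    omega

end Pool.Agent.B5.O4VH29
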